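import Pool.Agent.H83.FD.Zero

/-!
# FD NonSim: root count of the multipliers of the family in the coset `-1/(2m) + ℤ`

`u I = ∏_{n ≤ B} ∏_{i < n} (2 n X + 2 i + 2 - [n ∈ I])`.  For `I ≠ J` and `m` the largest element of the symmetric difference, the numbers of
roots of `u I` and `u J` in `-1/(2m) + ℤ` differ by exactly one.
-/

set_option autoImplicit false

noncomputable section

open Polynomial Finset

namespace Pool.Agent.H39.FD

open Pool.Agent.H83.FD

variable {F : Type*} [Field F] [CharZero F]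

/-- the factor of `n`: `∏_{i < n} (2 n X + 2 i + 2 - b)` -/
def fac (F : Type*) [Field F] (n b : ℕ) : F[X] := ∏ i ∈ range n, (C (2 * (n : F)) * X + C (2 * (i : F) + 2 - (b : F)))

theorem fac_ne (n b : ℕ) : fac F n b ≠ 0 := by
  refine prod_ne_zero_iff.mpr fun i hi => ?_
  have hn : (n : F) ≠ 0 := by
    have := mem_range.mp hi
    exact_mod_cast (by omega : n ≠ 0)
  intro h
  have h1 := congrArg (fun p : F[X] => p.coeff 1) h
  simp [coeff_C] at h1
  have := mem_range.mp hi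
  omega

/-- one linear factor: root in the coset `-1/(2m) + ℤ` iff `m (2 i + 2 - b) = n` -/
theorem coset_iff {m n i b : ℕ} (hm : 1 ≤ m) (hi : i < n) (hb : b ≤ 1) :
    (∃ z : ℤ, -((2 * (n : F))⁻¹ * (2 * (i : F) + 2 - (b : F))) = -(2 * (m : F))⁻¹ + z) ↔ m * (2 * i + 2 - b) = n := by
  have hn0 : (n : F) ≠ 0 := by exact_mod_cast (by omega : n ≠ 0)
  have hm0 : (m : F) ≠ 0 := by exact_mod_cast (by omega : m ≠ 0)
  constructor
  · rintro ⟨z, hz⟩
    have h1 : (m : F) * (2 * i + 2 - b) = n * (1 - 2 * m * z) := by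
      field_simp at hz
      linear_combination -hz
    have h2 : (m : ℤ) * (2 * i + 2 - b) = n * (1 - 2 * m * z) := by exact_mod_cast h1
    have hi' : (i : ℤ) + 1 ≤ n := by exact_mod_cast hi
    have hb' : (b : ℤ) ≤ 1 := by exact_mod_cast hb
    have hb0 : (0 : ℤ) ≤ b := by positivity
    have hm' : (1 : ℤ) ≤ m := by exact_mod_cast hm
    have hi0 : (0 : ℤ) ≤ i := by positivity
    have hn' : (1 : ℤ) ≤ n := by omega
    have hz0 : z = 0 := by
      have hlow : 0 < (n : ℤ) * (1 - 2 * m * z) := by rw [← h2]; exact mul_pos (by omega) (by omega)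
      have hup : (n : ℤ) * (1 - 2 * m * z) ≤ n * (2 * m) := by
        rw [← h2]
        nlinarith
      have h3 : 0 < 1 - 2 * (m : ℤ) * z := by
        by_contra hh
        nlinarith
      have h4 : 1 - 2 * (m : ℤ) * z ≤ 2 * m := le_of_mul_le_mul_left hup (by omega)
      rcases lt_trichotomy z 0 with h | h | h
      · have : (m : ℤ) * z ≤ -m := by nlinarith
        exfalso; nlinarith
      · exact h
      · have : (m : ℤ) ≤ m * z := by nlinarith
        exfalso; nlinarith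
    rw [hz0] at h2
    have h5 : ((m * (2 * i + 2 - b) : ℕ) : ℤ) = n := by
      push_cast [Nat.cast_sub (by omega : b ≤ 2 * i + 2)]
      rw [h2]; ring
    exact_mod_cast h5
  · intro h
    refine ⟨0, ?_⟩
    have h1 : (m : F) * (2 * i + 2 - b) = n := by
      have := congrArg (fun t : ℕ => (t : F)) h
      push_cast [Nat.cast_sub (by omega : b ≤ 2 * i + 2)] at this
      exact this
    have hb2 : (2 * (i : F) + 2 - b) ≠ 0 := by
      intro h0
      rw [h0, mul_zero] at h1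
      exact hn0 h1.symm
    have h3 : (2 * (n : F))⁻¹ * (2 * (i : F) + 2 - b) = (2 * (m : F))⁻¹ := by
      rw [← h1, ← mul_assoc, mul_inv, mul_assoc, inv_mul_cancel₀ hb2, mul_one]
    rw [h3, Int.cast_zero, add_zero]

/-- number of roots of the factor of `n` in the coset `-1/(2m) + ℤ` -/
theorem cosN_fac {m n b : ℕ} (hm : 1 ≤ m) (hb : b ≤ 1) :
    cosN (-(2 * (m : F))⁻¹) (fac F n b) = ∑ i ∈ range n, if m * (2 * i + 2 - b) = n then 1 else 0 := by
  classical
  have hne : ∀ i ∈ range n, (C (2 * (n : F)) * X + C (2 * (i : F) + 2 - (b : F)) : F[X]) ≠ 0 := fun i hi =>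
    (prod_ne_zero_iff.mp (fac_ne (F := F) n b)) i hi
  unfold fac
  rw [cosN_prod _ _ hne]
  refine sum_congr rfl fun i hi => ?_
  have hn : (n : F) ≠ 0 := by
    have := mem_range.mp hi
    exact_mod_cast (by omega : n ≠ 0)
  rw [cosN_linear _ (mul_ne_zero two_ne_zero hn)]
  exact if_congr (coset_iff hm (mem_range.mp hi) hb) rfl rfl

/-- below `m` no roots -/
theorem cosN_fac_lt {m n b : ℕ} (hm : 1 ≤ m) (hb : b ≤ 1) (hnm : n < m) : cosN (-(2 * (m : F))⁻¹) (fac F n b) = 0 := by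
  rw [cosN_fac hm hb]
  refine sum_eq_zero fun i _ => if_neg ?_
  intro h
  have : 1 ≤ 2 * i + 2 - b := by omega
  nlinarith

/-- at `m`, `b = 1`: one root -/
theorem cosN_fac_one {m : ℕ} (hm : 1 ≤ m) : cosN (-(2 * (m : F))⁻¹) (fac F m 1) = 1 := by
  rw [cosN_fac hm le_rfl, sum_eq_single_of_mem 0 (mem_range.mpr hm)]
  · rw [if_pos (by simp)]
  · intro i _ hi
    refine if_neg ?_
    intro h
    have h1 : 2 * i + 2 - 1 ≠ 1 := by omega
    exact h1 (Nat.eq_of_mul_eq_mul_left hm (by rw [h, mul_one]))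

/-- at `m`, `b = 0`: no root -/
theorem cosN_fac_zero {m : ℕ} (hm : 1 ≤ m) : cosN (-(2 * (m : F))⁻¹) (fac F m 0) = 0 := by
  rw [cosN_fac hm (by omega)]
  refine sum_eq_zero fun i _ => if_neg ?_
  intro h
  have h1 : 2 * i + 2 - 0 ≠ 1 := by omega
  exact h1 (Nat.eq_of_mul_eq_mul_left hm (by rw [h, mul_one]))

/-- `u I = ∏_{1 ≤ n ≤ B} ∏_{i < n} (2 n X + 2 i + 2 - [n ∈ I])` -/
def uI (F : Type*) [Field F] (B : ℕ) (I : Finset ℕ) : F[X] := ∏ n ∈ Icc 1 B, fac F n (if n ∈ I then 1 else 0)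

theorem uI_ne (B : ℕ) (I : Finset ℕ) : uI F B I ≠ 0 := prod_ne_zero_iff.mpr fun n _ => fac_ne n _

/-- the product of the odd factors over `I` -/
def An (F : Type*) [Field F] (I : Finset ℕ) : F[X] := ∏ n ∈ I, fac F n 1

/-- the product of the even factors over `I` -/
def Bn (F : Type*) [Field F] (I : Finset ℕ) : F[X] := ∏ n ∈ I, fac F n 0

theorem An_ne (I : Finset ℕ) : An F I ≠ 0 := prod_ne_zero_iff.mpr fun n _ => fac_ne n _

theorem Bn_ne (I : Finset ℕ) : Bn F I ≠ 0 := prod_ne_zero_iff.mpr fun n _ => fac_ne n _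

/-- the largest element of the symmetric difference -/
theorem exists_max {B : ℕ} {I J : Finset ℕ} (hI : I ⊆ Icc 1 B) (hJ : J ⊆ Icc 1 B) (hne : I ≠ J) :
    ∃ m, 1 ≤ m ∧ m ≤ B ∧ (∀ n, m < n → (n ∈ I ↔ n ∈ J)) ∧ (m ∈ I ∧ m ∉ J ∨ m ∉ I ∧ m ∈ J) := by
  classical
  have h0 : (symmDiff I J).Nonempty := by
    rw [nonempty_iff_ne_empty, Ne, ← bot_eq_empty, symmDiff_eq_bot]
    exact hne
  have hmem := max'_mem _ h0
  have hB : ∀ x ∈ symmDiff I J, x ∈ Icc 1 B := by
    intro x hx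
    rcases mem_symmDiff.mp hx with h | h
    · exact hI h.1
    · exact hJ h.1
  have hm := mem_Icc.mp (hB _ hmem)
  refine ⟨_, hm.1, hm.2, fun n hn => ?_, ?_⟩
  · by_contra hcon
    have : n ∈ symmDiff I J := by
      rw [mem_symmDiff]
      tauto
    exact absurd (le_max' _ n this) (not_le.mpr hn)
  · rcases mem_symmDiff.mp hmem with h | h
    · exact Or.inl h
    · exact Or.inr ⟨h.2, h.1⟩

/-- the terms in the coset `-1/(2m) + ℤ`: equal except at `m` -/
theorem term_eq {m n : ℕ} {I J : Finset ℕ} (hm : 1 ≤ m) (hnm : n ≠ m) (hgt : ∀ n, m < n → (n ∈ I ↔ n ∈ J)) :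
    cosN (-(2 * (m : F))⁻¹) (fac F n (if n ∈ I then 1 else 0)) = cosN (-(2 * (m : F))⁻¹) (fac F n (if n ∈ J then 1 else 0)) := by
  rcases lt_or_gt_of_ne hnm with h | h
  · rw [cosN_fac_lt hm (by split_ifs <;> omega) h, cosN_fac_lt hm (by split_ifs <;> omega) h]
  · by_cases hI : n ∈ I
    · rw [if_pos hI, if_pos ((hgt n h).mp hI)]
    · rw [if_neg hI, if_neg (fun hJ => hI ((hgt n h).mpr hJ))]

theorem cosN_uI {B m : ℕ} (I : Finset ℕ) (hmB : m ∈ Icc 1 B) (hm : 1 ≤ m) :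
    cosN (-(2 * (m : F))⁻¹) (uI F B I) = (if m ∈ I then 1 else 0) +
      ∑ n ∈ (Icc 1 B).erase m, cosN (-(2 * (m : F))⁻¹) (fac F n (if n ∈ I then 1 else 0)) := by
  unfold uI
  rw [cosN_prod _ _ fun n _ => fac_ne n _, ← add_sum_erase _ _ hmB]
  congr 1
  split_ifs with h
  · exact cosN_fac_one hm
  · exact cosN_fac_zero hm

/-- **Non-similarity of the family, first form.** -/
theorem cosN_uI_ne {B : ℕ} {I J : Finset ℕ} (hI : I ⊆ Icc 1 B) (hJ : J ⊆ Icc 1 B) (hne : I ≠ J) :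
    ∃ c : F, cosN c (uI F B I) ≠ cosN c (uI F B J) := by
  classical
  obtain ⟨m, hm1, hmB, hgt, hm⟩ := exists_max hI hJ hne
  refine ⟨-(2 * (m : F))⁻¹, ?_⟩
  have hmem : m ∈ Icc 1 B := mem_Icc.mpr ⟨hm1, hmB⟩
  rw [cosN_uI I hmem hm1, cosN_uI J hmem hm1,
    sum_congr rfl fun n hn => term_eq (F := F) (I := I) (J := J) hm1 (ne_of_mem_erase hn) hgt]
  rcases hm with ⟨h1, h2⟩ | ⟨h1, h2⟩
  · rw [if_pos h1, if_neg h2]; omega
  · rw [if_neg h1, if_pos h2]; omega

/-- above `m` and in both: equal contributions; the difference of the odd products -/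
theorem cosN_fac_prod {m : ℕ} (b : ℕ) (I : Finset ℕ) :
    cosN (-(2 * (m : F))⁻¹) (∏ n ∈ I, fac F n b) = ∑ n ∈ I, cosN (-(2 * (m : F))⁻¹) (fac F n b) :=
  cosN_prod _ _ fun n _ => fac_ne n _

theorem sum_split {m : ℕ} {I J : Finset ℕ} (hgt : ∀ n, m < n → (n ∈ I ↔ n ∈ J)) (f : ℕ → ℕ) (hlt : ∀ n, n < m → f n = 0) :
    (∑ n ∈ I, f n) + (if m ∈ J then f m else 0) = (∑ n ∈ J, f n) + (if m ∈ I then f m else 0) := by
  classical
  have key : ∀ K : Finset ℕ, ∑ n ∈ K, f n = (∑ n ∈ K.filter (fun n => m < n), f n) + (if m ∈ K then f m else 0) := by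
    intro K
    rw [← sum_filter_add_sum_filter_not K (fun n => m < n)]
    congr 1
    by_cases hK : m ∈ K
    · rw [if_pos hK, sum_eq_single_of_mem m (mem_filter.mpr ⟨hK, lt_irrefl m⟩)]
      intro n hn hnm
      exact hlt n (by have := (mem_filter.mp hn).2; omega)
    · rw [if_neg hK]
      refine sum_eq_zero fun n hn => hlt n ?_
      have h1 := mem_filter.mp hn
      have : n ≠ m := by rintro rfl; exact hK h1.1
      omega
  have hfil : I.filter (fun n => m < n) = J.filter (fun n => m < n) := by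
    ext n
    simp only [mem_filter]
    constructor
    · rintro ⟨h1, h2⟩; exact ⟨(hgt n h2).mp h1, h2⟩
    · rintro ⟨h1, h2⟩; exact ⟨(hgt n h2).mpr h1, h2⟩
  rw [key I, key J, hfil]
  omega

/-- **Non-similarity of the family, form with the quotients `An I / Bn I`.** -/
theorem cosN_An_Bn_ne {B : ℕ} {I J : Finset ℕ} (hI : I ⊆ Icc 1 B) (hJ : J ⊆ Icc 1 B) (hne : I ≠ J) :
    ∃ c : F, cosN c (An F I) + cosN c (Bn F J) ≠ cosN c (Bn F I) + cosN c (An F J) := by
  classical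
  obtain ⟨m, hm1, hmB, hgt, hm⟩ := exists_max hI hJ hne
  refine ⟨-(2 * (m : F))⁻¹, ?_⟩
  unfold An Bn
  rw [cosN_fac_prod, cosN_fac_prod, cosN_fac_prod, cosN_fac_prod]
  have h1 := sum_split (m := m) (I := I) (J := J) hgt (fun n => cosN (-(2 * (m : F))⁻¹) (fac F n 1))
    fun n hn => cosN_fac_lt hm1 le_rfl hn
  have h0 := sum_split (m := m) (I := I) (J := J) hgt (fun n => cosN (-(2 * (m : F))⁻¹) (fac F n 0))
    fun n hn => cosN_fac_lt hm1 (by omega) hn
  simp only [cosN_fac_one hm1, cosN_fac_zero hm1] at h1 h0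
  rcases hm with ⟨h2, h3⟩ | ⟨h2, h3⟩
  · rw [if_pos h2, if_neg h3] at h1
    rw [if_pos h2, if_neg h3] at h0
    omega
  · rw [if_neg h2, if_pos h3] at h1
    rw [if_neg h2, if_pos h3] at h0
    omega

omit [CharZero F] in
/-- scalar factors do not matter -/
theorem cosN_C_mul (c : F) {a : F} (ha : a ≠ 0) (P : F[X]) : cosN c (C a * P) = cosN c P := by
  unfold cosN
  rw [roots_C_mul _ ha]

end Pool.Agent.H39.FD
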