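import Pool.Agent.H39.FD.ZeroInst
import Pool.Agent.H56.FD.IntSz

/-!
# FD: `zero_inst`, the zero estimate of route 2 exactly as in `Pool/Agent/H56/FD/Bad.lean`
-/

set_option autoImplicit false

open Finset

namespace Pool.Agent.H39.FD

open H56FD in
/-- zero estimate -/
theorem zero_inst (Y Z B e : ℕ) (hY : 1 ≤ Y) (_hB : 1 ≤ B) (_he : 1 ≤ e)
    (F : Finset (Finset ℕ)) (hF : ∀ I ∈ F, I ⊆ Icc 1 B)
    (hcount : F.card * (Y + F.card * B ^ 2) < e * (Z * Y - F.card))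
    (t : Finset ℕ → ℕ → ℤ) (ht : ∃ I ∈ F, ∃ i < Y, t I i ≠ 0) :
    ∃ a < Z * Y, ∃ s < e, vl Y Z B F t a s ≠ 0 :=
  zero_inst_aux Y Z B e hY F hF hcount t ht fun I _ _ hi _ ha _ _ => nrm_dvd hY hi.le ha.le I

end Pool.Agent.H39.FD
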