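import Pool.Agent.H56.FD.Defs
import Pool.Agent.H39.FD.NonSim

/-!
# FD ZeroInst: the zero estimate for helper56's matrix (route 2)
-/

set_option autoImplicit false

noncomputable section

open Polynomial Finset

namespace Pool.Agent.H39.FD

open Pool.Agent.H83.FD

/-- the numerator of the multiplier of the column `I` -/
def uu (B : ℕ) (I : Finset ℕ) : ℚ[X] :=
  ∏ n ∈ Icc 1 B, ∏ i ∈ range n, (C (4 * n : ℚ) * X + C (4 * i + (if n ∈ I then 2 else 4) : ℚ))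

/-- the denominator of the multiplier -/
def vv (B N : ℕ) : ℚ[X] :=
  ∏ n ∈ Icc 1 B, ∏ i ∈ range n, (C (n : ℚ) * X + C ((n : ℚ) - n * N - i - 1))

/-- the local polynomial over `ℚ` -/
def TQ (B N : ℕ) (I : Finset ℕ) (a : ℕ) : ℚ[X] := (H56FD.T4 B N I a).map (Int.castRingHom ℚ)

theorem TQ_eq (B N : ℕ) (I : Finset ℕ) (a : ℕ) : TQ B N I a = ∏ n ∈ Icc 1 B, ((∏ i ∈ range (n * a),
      (C (4 * n : ℚ) * X + C (4 * i + (if n ∈ I then 2 else 4) : ℚ))) *
    ∏ i ∈ range (n * (N - a)), (C (n : ℚ) * X - C (i + 1 : ℚ))) := by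
  unfold TQ H56FD.T4
  rw [Polynomial.map_prod]
  refine prod_congr rfl fun n _ => ?_
  rw [Polynomial.map_mul, Polynomial.map_prod, Polynomial.map_prod]
  congr 1
  · refine prod_congr rfl fun i _ => ?_
    rw [Polynomial.map_add, Polynomial.map_mul, map_C, map_X, map_C, eq_intCast, eq_intCast]
    push_cast
    split_ifs <;> rfl
  · refine prod_congr rfl fun i _ => ?_
    rw [Polynomial.map_sub, Polynomial.map_mul, map_C, map_X, map_C, eq_intCast, eq_intCast]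
    push_cast
    rfl

theorem lin_ne {a b : ℚ} (ha : a ≠ 0) : (C a * X + C b : ℚ[X]) ≠ 0 := by
  intro h
  have h1 := congrArg (fun p : ℚ[X] => p.coeff 1) h
  simp [coeff_C] at h1
  exact ha h1

theorem uu_ne (B : ℕ) (I : Finset ℕ) : uu B I ≠ 0 := by
  refine prod_ne_zero_iff.mpr fun n hn => prod_ne_zero_iff.mpr fun i _ => lin_ne ?_
  have := (mem_Icc.mp hn).1
  have : (n : ℚ) ≠ 0 := by exact_mod_cast (by omega : n ≠ 0)
  exact mul_ne_zero (by norm_num) this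

theorem vv_ne (B N : ℕ) : vv B N ≠ 0 := by
  refine prod_ne_zero_iff.mpr fun n hn => prod_ne_zero_iff.mpr fun i _ => lin_ne ?_
  have := (mem_Icc.mp hn).1
  exact_mod_cast (by omega : n ≠ 0)

theorem prod_deg (B : ℕ) (f : ℕ → ℕ → ℚ[X]) (hf : ∀ n i, (f n i).natDegree ≤ 1) :
    (∏ n ∈ Icc 1 B, ∏ i ∈ range n, f n i).natDegree ≤ B ^ 2 := by
  refine (natDegree_prod_le _ _).trans ?_
  refine (sum_le_card_nsmul _ _ B fun n hn => ?_).trans ?_
  · refine (natDegree_prod_le _ _).trans ?_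
    refine (sum_le_card_nsmul _ _ 1 fun i _ => hf n i).trans ?_
    rw [card_range, smul_eq_mul, mul_one]
    exact (mem_Icc.mp hn).2
  · rw [Nat.card_Icc, smul_eq_mul, Nat.add_sub_cancel, pow_two]

theorem uu_deg (B : ℕ) (I : Finset ℕ) : (uu B I).natDegree ≤ B ^ 2 := prod_deg B _ fun _ _ => natDegree_linear_le

theorem vv_deg (B N : ℕ) : (vv B N).natDegree ≤ B ^ 2 := prod_deg B _ fun _ _ => natDegree_linear_le

theorem prod_prod_comp (B : ℕ) (f : ℕ → ℕ → ℚ[X]) (q : ℚ[X]) :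
    (∏ n ∈ Icc 1 B, ∏ i ∈ range n, f n i).comp q = ∏ n ∈ Icc 1 B, ∏ i ∈ range n, (f n i).comp q := by
  rw [Polynomial.prod_comp]
  exact prod_congr rfl fun n _ => Polynomial.prod_comp _ _ _

/-- the recursion -/
theorem rel (B N : ℕ) (I : Finset ℕ) (a : ℕ) (ha : a + 1 ≤ N) :
    (vv B N).comp (X + C (a : ℚ)) * TQ B N I (a + 1) = (uu B I).comp (X + C (a : ℚ)) * TQ B N I a := by
  rw [TQ_eq, TQ_eq]
  unfold vv uu
  rw [prod_prod_comp, prod_prod_comp, ← prod_mul_distrib, ← prod_mul_distrib]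
  refine prod_congr rfl fun n _ => ?_
  have e1 : n * (a + 1) = n * a + n := by ring
  have e2 : n * (N - a) = n * (N - (a + 1)) + n := by
    obtain ⟨k, rfl⟩ := Nat.exists_eq_add_of_le ha
    have : a + 1 + k - a = k + 1 := by omega
    rw [this, Nat.add_sub_cancel_left]; ring
  rw [e1, e2, prod_range_add, prod_range_add (fun i => (C (n : ℚ) * X - C (i + 1 : ℚ)))]
  have h1 : ∏ i ∈ range n, (C (4 * n : ℚ) * X + C (4 * ((n * a + i : ℕ) : ℚ) + (if n ∈ I then 2 else 4) : ℚ))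
      = ∏ i ∈ range n, (C (4 * n : ℚ) * X + C (4 * i + (if n ∈ I then 2 else 4) : ℚ)).comp (X + C (a : ℚ)) := by
    refine prod_congr rfl fun i _ => ?_
    rw [add_comp, mul_comp, C_comp, X_comp, C_comp, mul_add, ← C_mul, add_assoc, ← C_add]
    congr 2
    push_cast; ring
  have h2 : ∏ i ∈ range n, (C (n : ℚ) * X - C (((n * (N - (a + 1)) + i : ℕ) : ℚ) + 1 : ℚ))
      = ∏ i ∈ range n, (C (n : ℚ) * X + C ((n : ℚ) - n * N - i - 1)).comp (X + C (a : ℚ)) := by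
    refine prod_congr rfl fun i _ => ?_
    rw [add_comp, mul_comp, C_comp, X_comp, C_comp, mul_add, ← C_mul, add_assoc, ← C_add, sub_eq_add_neg, ← C_neg]
    congr 2
    rw [Nat.cast_add, Nat.cast_mul, Nat.cast_sub ha]
    push_cast; ring
  rw [h1, h2]
  ring

theorem vv_eval_ne (B N a : ℕ) (ha : a + 1 ≤ N) : (vv B N).eval (a : ℚ) ≠ 0 := by
  unfold vv
  rw [eval_prod]
  refine prod_ne_zero_iff.mpr fun n hn => ?_
  rw [eval_prod]
  refine prod_ne_zero_iff.mpr fun i _ => ?_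
  simp only [eval_add, eval_mul, eval_C, eval_X]
  have h1 : ((a : ℚ) + 1) ≤ N := by exact_mod_cast ha
  have h2 : (0 : ℚ) ≤ n := Nat.cast_nonneg n
  have h3 : (0 : ℚ) ≤ i := Nat.cast_nonneg i
  have h4 : (n : ℚ) * (a + 1) ≤ n * N := mul_le_mul_of_nonneg_left h1 h2
  have : (n : ℚ) * a + (n - n * N - i - 1) < 0 := by linarith
  exact this.ne

theorem TQ_order (B N : ℕ) (I : Finset ℕ) (a : ℕ) : ¬ X ^ (0 + 1) ∣ TQ B N I a := by
  rw [zero_add, pow_one, X_dvd_iff, coeff_zero_eq_eval_zero, TQ_eq, eval_prod]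
  refine prod_ne_zero_iff.mpr fun n _ => ?_
  rw [eval_mul, eval_prod, eval_prod]
  refine mul_ne_zero (prod_ne_zero_iff.mpr fun i _ => ?_) (prod_ne_zero_iff.mpr fun i _ => ?_)
  · simp only [eval_add, eval_mul, eval_C, eval_X, mul_zero, zero_add]
    have h3 : (0 : ℚ) ≤ i := Nat.cast_nonneg i
    split_ifs
    · have : (0 : ℚ) < 4 * i + 2 := by linarith
      exact this.ne'
    · have : (0 : ℚ) < 4 * i + 4 := by linarith
      exact this.ne'
  · simp only [eval_sub, eval_mul, eval_C, eval_X, mul_zero, zero_sub]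
    have h3 : (0 : ℚ) ≤ i := Nat.cast_nonneg i
    have : -((i : ℚ) + 1) < 0 := by linarith
    exact this.ne

/-- `uu` is a constant times `uI` -/
theorem uu_eq (B : ℕ) (I : Finset ℕ) : ∃ a : ℚ, a ≠ 0 ∧ uu B I = C a * uI ℚ B I := by
  classical
  refine ⟨∏ n ∈ Icc 1 B, ∏ i ∈ range n, 2, ?_, ?_⟩
  · exact prod_ne_zero_iff.mpr fun n _ => prod_ne_zero_iff.mpr fun i _ => two_ne_zero
  · unfold uu uI fac
    rw [map_prod, ← prod_mul_distrib]
    refine prod_congr rfl fun n _ => ?_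
    rw [map_prod, ← prod_mul_distrib]
    refine prod_congr rfl fun i _ => ?_
    rw [mul_add, ← mul_assoc, ← C_mul, ← C_mul]
    congr 3
    · ring
    · split_ifs <;> push_cast <;> ring

theorem uu_nonsim {B : ℕ} {I J : Finset ℕ} (hI : I ⊆ Icc 1 B) (hJ : J ⊆ Icc 1 B) (hne : I ≠ J) :
    ∃ c : ℚ, cosN c (uu B I) ≠ cosN c (uu B J) := by
  obtain ⟨c, hc⟩ := cosN_uI_ne (F := ℚ) hI hJ hne
  obtain ⟨a, ha, h1⟩ := uu_eq B I
  obtain ⟨b, hb, h2⟩ := uu_eq B J
  refine ⟨c, ?_⟩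
  rw [h1, h2, cosN_C_mul _ ha, cosN_C_mul _ hb]
  exact hc

/-- `X (X - 1) ... (X - i + 1)` -/
def ff (i : ℕ) : ℚ[X] := ∏ j ∈ range i, (X - C (j : ℚ))

theorem ff_comp (i a : ℕ) : (ff i).comp (X + C (a : ℚ)) = (H56FD.DD i a).map (Int.castRingHom ℚ) := by
  unfold ff H56FD.DD
  rw [Polynomial.prod_comp, Polynomial.map_prod]
  refine prod_congr rfl fun j _ => ?_
  rw [sub_comp, X_comp, C_comp, Polynomial.map_add, map_X, map_C, eq_intCast, add_sub_assoc, ← C_sub]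
  push_cast
  rfl

theorem ff_natDegree (i : ℕ) : (ff i).natDegree = i := by
  unfold ff
  rw [natDegree_prod_of_monic _ _ fun j _ => monic_X_sub_C _]
  simp only [natDegree_X_sub_C, sum_const, card_range, smul_eq_mul, mul_one]

theorem ff_eval_lt {i k : ℕ} (h : k < i) : (ff i).eval (k : ℚ) = 0 := by
  unfold ff
  rw [eval_prod]
  exact prod_eq_zero (mem_range.mpr h) (by simp)

theorem ff_eval_self (i : ℕ) : (ff i).eval (i : ℚ) ≠ 0 := by
  unfold ff
  rw [eval_prod]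
  refine prod_ne_zero_iff.mpr fun j hj => ?_
  rw [eval_sub, eval_X, eval_C]
  have := mem_range.mp hj
  exact sub_ne_zero.mpr (by exact_mod_cast (by omega : i ≠ j))

/-- the coefficient polynomial of the column `I` -/
def Apol (Y Z B : ℕ) (t : ℕ → ℤ) : ℚ[X] := ∑ i ∈ range Y, C ((t i : ℚ) / (H56FD.nrm Y Z B i : ℚ)) * ff i

theorem nrm_ne (Y Z B i : ℕ) : (H56FD.nrm Y Z B i : ℚ) ≠ 0 := by
  unfold H56FD.nrm
  have h1 : (Y.factorial) ≠ 0 := Nat.factorial_ne_zero _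
  have h2 : (i.factorial) ≠ 0 := Nat.factorial_ne_zero _
  exact_mod_cast mul_ne_zero (pow_ne_zero _ h1) h2

theorem Apol_deg {Y : ℕ} (hY : 1 ≤ Y) (Z B : ℕ) (t : ℕ → ℤ) : (Apol Y Z B t).natDegree < Y := by
  unfold Apol
  refine lt_of_le_of_lt (natDegree_sum_le_of_forall_le (n := Y - 1) _ _ fun i hi => ?_) (by omega)
  refine (natDegree_C_mul_le _ _).trans ?_
  rw [ff_natDegree]
  have := mem_range.mp hi
  omega

theorem Apol_ne {Y Z B : ℕ} {t : ℕ → ℤ} (ht : ∃ i < Y, t i ≠ 0) : Apol Y Z B t ≠ 0 := by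
  classical
  obtain ⟨hk, hk0⟩ := Nat.find_spec ht
  set k := Nat.find ht with hkdef
  intro h0
  have h1 := congrArg (eval (k : ℚ)) h0
  unfold Apol at h1
  rw [eval_zero, eval_finsetSum, sum_eq_single_of_mem k (mem_range.mpr hk)] at h1
  · rw [eval_mul, eval_C] at h1
    refine mul_ne_zero (div_ne_zero ?_ (nrm_ne Y Z B k)) (ff_eval_self k) h1
    exact_mod_cast hk0
  · intro i hi hik
    rw [eval_mul, eval_C]
    rcases lt_or_gt_of_ne hik with h | h
    · have h2 := Nat.find_min ht h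
      have h3 : t i = 0 := by
        by_contra h4
        exact h2 ⟨mem_range.mp hi, h4⟩
      rw [h3]
      simp
    · rw [ff_eval_lt h, mul_zero]

/-- `vl` as a coefficient -/
theorem vl_eq {Y Z B : ℕ} (F : Finset (Finset ℕ)) (t : Finset ℕ → ℕ → ℤ) (a s : ℕ)
    (hn : ∀ I ∈ F, ∀ i < Y, (H56FD.nrm Y Z B i : ℤ) ∣
      (Nat.lcmUpto Y : ℤ) ^ (s + B) * (H56FD.DD i a * H56FD.T4 B (Z * Y) I a).coeff s) :
    (H56FD.vl Y Z B F t a s : ℚ) = (Nat.lcmUpto Y : ℚ) ^ (s + B) *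
      (∑ I ∈ F, (Apol Y Z B (t I)).comp (X + C (a : ℚ)) * TQ B (Z * Y) I a).coeff s := by
  unfold H56FD.vl
  push_cast
  rw [finsetSum_coeff, mul_sum]
  refine sum_congr rfl fun I hI => ?_
  unfold Apol
  rw [← coe_compRingHom_apply, map_sum, sum_mul, finsetSum_coeff, mul_sum]
  refine sum_congr rfl fun i hi => ?_
  rw [coe_compRingHom_apply, mul_comp, C_comp, ff_comp, mul_assoc, coeff_C_mul]
  unfold TQ
  rw [← Polynomial.map_mul, coeff_map, eq_intCast]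
  unfold H56FD.ent
  have h1 := nrm_ne Y Z B i
  rw [Int.cast_div (hn I hI i (mem_range.mp hi)) (by exact_mod_cast h1)]
  push_cast
  field_simp

/-- **The zero estimate for the matrix**, the integrality as a hypothesis. -/
theorem zero_inst_aux (Y Z B e : ℕ) (hY : 1 ≤ Y)
    (F : Finset (Finset ℕ)) (hF : ∀ I ∈ F, I ⊆ Icc 1 B)
    (hcount : F.card * (Y + F.card * B ^ 2) < e * (Z * Y - F.card))
    (t : Finset ℕ → ℕ → ℤ) (ht : ∃ I ∈ F, ∃ i < Y, t I i ≠ 0)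
    (hn : ∀ I ∈ F, ∀ i < Y, ∀ a < Z * Y, ∀ s < e, (H56FD.nrm Y Z B i : ℤ) ∣
      (Nat.lcmUpto Y : ℤ) ^ (s + B) * (H56FD.DD i a * H56FD.T4 B (Z * Y) I a).coeff s) :
    ∃ a < Z * Y, ∃ s < e, H56FD.vl Y Z B F t a s ≠ 0 := by
  classical
  obtain ⟨I₀, hI₀, ht₀⟩ := ht
  have hmain := zero_est (F := ℚ) (ι := {I // I ∈ F}) (fun I => Apol Y Z B (t I.1)) (fun I => uu B I.1)
    (fun _ => vv B (Z * Y)) (P := fun I a => TQ B (Z * Y) I.1 a) (L := Z * Y) (e := e) (w := 0) (n0 := Y) (d := B ^ 2)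
    (S := F.card) (by rw [Fintype.card_coe]) ⟨⟨I₀, hI₀⟩, Apol_ne ht₀⟩ (fun _ => Apol_deg hY Z B _) (fun _ => uu_ne B _)
    (fun _ => uu_deg B _) (fun _ => vv_ne B _) (fun _ => vv_deg B _) (fun I a ha => rel B (Z * Y) I.1 a ha.le)
    (fun _ a ha => vv_eval_ne B _ a ha.le) (fun I a _ => TQ_order B _ I.1 a)
    (fun I J hIJ => by
      obtain ⟨c, hc⟩ := uu_nonsim (hF I.1 I.2) (hF J.1 J.2) (fun h => hIJ (Subtype.ext h))
      refine ⟨c, fun h => hc ?_⟩
      omega)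
    (by
      rw [Nat.sub_zero]
      calc F.card * (Y - 1 + (F.card - 1) * B ^ 2) ≤ F.card * (Y + F.card * B ^ 2) :=
            Nat.mul_le_mul_left _ (add_le_add (Nat.sub_le _ _) (Nat.mul_le_mul_right _ (Nat.sub_le _ _)))
        _ < e * (Z * Y - F.card) := hcount
        _ ≤ (Z * Y + 1 - F.card) * e := by
            rw [Nat.mul_comm e]
            exact Nat.mul_le_mul_right _ (by omega))
  obtain ⟨a, ha, s, hs, hne⟩ := hmain
  refine ⟨a, ha, s, hs, ?_⟩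
  intro h0
  have h1 := vl_eq F t a s (fun I hI i hi => hn I hI i hi a ha s hs)
  rw [h0, Int.cast_zero] at h1
  have h2 : ((Nat.lcmUpto Y : ℚ)) ^ (s + B) ≠ 0 := by
    refine pow_ne_zero _ ?_
    exact_mod_cast (Nat.lcmUpto_pos Y).ne'
  apply hne
  rw [sum_coe_sort F (fun I => (Apol Y Z B (t I)).comp (X + C (a : ℚ)) * TQ B (Z * Y) I a)]
  exact (mul_eq_zero.mp h1.symm).resolve_left h2

end Pool.Agent.H39.FD
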